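import Pool.Agent.Helper71.BD.PAC

/-!
# Affine pseudo algebraically closed fields (Helper71, rows A of PROJECT TL)
-/

set_option autoImplicit false

open Polynomial

namespace TL

universe u

/-- Every point with coordinates in a finitely generated regular extension of `F` can be
specialised to a point with coordinates in `F`. -/
def AffPAC (F : Type u) [Field F] : Prop :=
  ∀ (E : Type u) [Field E] [Algebra F E] [Algebra.EssFiniteType F E],
    (∀ a : E, IsAlgebraic F a → a ∈ (algebraMap F E).range) →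
    ∀ (ι : Type) [Finite ι] (x : ι → E), ∃ y : ι → F, ∀ f : MvPolynomial ι F,
      MvPolynomial.aeval x f = 0 → MvPolynomial.eval y f = 0

theorem affPAC_of_plane {F : Type u} [Field F] [PerfectField F] [Infinite F]
    (h : BD.PlanePAC F) : AffPAC F := by
  intro E _ _ _ halg ι _ x
  classical
  have := Fintype.ofFinite ι
  obtain ⟨σ, t, θ, G, hinj, hG, hdvd, ⟨r, u, v, hr, huv⟩, hz⟩ := BD.exists_model F E
  set φ : MvPolynomial σ F →+* E :=
    (MvPolynomial.aeval t : MvPolynomial σ F →ₐ[F] E).toRingHom with hφ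
  choose D P hD hP using fun i => hz (x i)
  set D₀ : MvPolynomial σ F := ∏ i, D i with hD₀
  have hD₀0 : D₀ ≠ 0 := Finset.prod_ne_zero_iff.2 fun i _ => hD i
  have hφ0 : φ D₀ ≠ 0 := fun h0 => hD₀0 (hinj (by rw [map_zero]; exact h0))
  let Q : ι → (MvPolynomial σ F)[X] := fun i => C (∏ k ∈ Finset.univ.erase i, D k) * P i
  have hQ : ∀ i, (Q i).eval₂ φ θ = φ D₀ * x i := by
    intro i
    have h1 : φ D₀ = φ (∏ k ∈ Finset.univ.erase i, D k) * φ (D i) := by
      rw [← map_mul, hD₀, mul_comm, Finset.mul_prod_erase _ _ (Finset.mem_univ i)]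
    have h2 : φ (D i) * x i = (P i).eval₂ φ θ := hP i
    simp only [Q]
    rw [eval₂_mul, eval₂_C, h1, mul_assoc, h2]
  have hirr := BD.abs_irreducible halg t θ G hG hdvd
  obtain ⟨a, b, hD', hr', hirr'⟩ := BD.bertini G hG hirr hr huv hD₀0
  obtain ⟨τ, η, h1, h2⟩ := h (G.map (BD.lin a b).toRingHom) (u.map (BD.lin a b).toRingHom)
    (v.map (BD.lin a b).toRingHom) (BD.lin a b r) (BD.lin a b D₀) (hG.map _) hr' (by
      have h3 := congrArg (Polynomial.map (BD.lin a b).toRingHom) huv
      rw [Polynomial.map_add, Polynomial.map_mul, Polynomial.map_mul, map_C,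
        ← derivative_map] at h3
      exact h3) hirr' hD'
  set ψ : MvPolynomial σ F →+* F := (evalRingHom τ).comp (BD.lin a b).toRingHom with hψ
  have hψ0 : ψ D₀ ≠ 0 := h2
  have hGψ : G.eval₂ ψ η = 0 := by
    rw [map_map, ← hψ, eval_map] at h1
    exact h1
  have hspec : ∀ R : (MvPolynomial σ F)[X], R.eval₂ φ θ = 0 → R.eval₂ ψ η = 0 := by
    intro R hR
    obtain ⟨T, rfl⟩ := (hdvd R).1 hR
    rw [eval₂_mul, hGψ, zero_mul]
  -- clear the denominators
  have key : ∀ f : MvPolynomial ι F, ∃ (e : ℕ) (R : (MvPolynomial σ F)[X]),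
      R.eval₂ φ θ = φ D₀ ^ e * MvPolynomial.aeval x f ∧
      R.eval₂ ψ η = ψ D₀ ^ e * MvPolynomial.aeval (fun i => (Q i).eval₂ ψ η / ψ D₀) f := by
    intro f
    induction f using MvPolynomial.induction_on with
    | C c =>
      refine ⟨0, C (MvPolynomial.C c), ?_, ?_⟩
      · rw [eval₂_C, pow_zero, one_mul, MvPolynomial.aeval_C]
        change MvPolynomial.aeval t (MvPolynomial.C c) = _
        rw [MvPolynomial.aeval_C]
      · rw [eval₂_C, pow_zero, one_mul, MvPolynomial.aeval_C]
        have h6 : (BD.lin a b).toRingHom (MvPolynomial.C c) = C c := by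
          change BD.lin a b (MvPolynomial.C c) = C c
          rw [BD.lin, MvPolynomial.aeval_C]
          rfl
        rw [hψ, RingHom.comp_apply, h6]
        simp
    | add p q hp hq =>
      obtain ⟨e, R, h1, h2⟩ := hp
      obtain ⟨e', R', h1', h2'⟩ := hq
      refine ⟨e + e', C (D₀ ^ e') * R + C (D₀ ^ e) * R', ?_, ?_⟩
      · rw [eval₂_add, eval₂_mul, eval₂_mul, eval₂_C, eval₂_C, h1, h1', map_pow, map_pow,
          map_add, pow_add]
        ring
      · rw [eval₂_add, eval₂_mul, eval₂_mul, eval₂_C, eval₂_C, h2, h2', map_pow, map_pow,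
          map_add, pow_add]
        ring
    | mul_X p i hp =>
      obtain ⟨e, R, h1, h2⟩ := hp
      refine ⟨e + 1, R * Q i, ?_, ?_⟩
      · rw [eval₂_mul, h1, hQ, map_mul, MvPolynomial.aeval_X]
        ring
      · rw [eval₂_mul, h2, map_mul, MvPolynomial.aeval_X, pow_succ]
        field_simp
  refine ⟨fun i => (Q i).eval₂ ψ η / ψ D₀, fun f hf => ?_⟩
  obtain ⟨e, R, h1, h2⟩ := key f
  rw [hf, mul_zero] at h1
  rw [hspec R h1] at h2
  have h3 := (mul_eq_zero.1 h2.symm).resolve_left (pow_ne_zero e hψ0)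
  rwa [MvPolynomial.aeval_eq_eval] at h3

end TL
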