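import Pool.Agent.Helper71.TL.Top
import Pool.Agent.Helper71.TL.Aff

/-!
# Divisibility of multigraded Hilbert functions (Helper71, row M1)

`TL.hil_dvd` : let `F` be an affinely pseudo algebraically closed field such that all algebraic
elements outside of `F` have degrees divisible by `l`, and let `I` be a homogeneous ideal without
stable zero over `F`. Then `l` divides the multigraded Hilbert function of `S / I` in all deep
degrees.
-/

set_option autoImplicit false

open MvPolynomial Module

namespace TL

universe u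

variable {F : Type u} [Field F] {σ : Type} {M : Type} [AddCommGroup M] {w : σ → M}

section prime

variable (P : Ideal (MvPolynomial σ F)) [hPp : P.IsPrime]

omit hPp in
/-- The dimension of the degree `n` part of an ideal containing the prime ideal `P`. -/
theorem finrank_part_eq (hw : FinW w) {J : Ideal (MvPolynomial σ F)} (hPJ : P ≤ J) (n : M) :
    finrank F (part w J n) = finrank F ((part w J n).map (frac P).toLinearMap) +
      finrank F (part w P n) := by
  have := hw.finPart J n
  have h1 := LinearMap.finrank_range_add_finrank_ker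
    ((frac P).toLinearMap.domRestrict (part w J n))
  rw [LinearMap.range_domRestrict] at h1
  rw [← h1]
  congr 1
  have h2 : part w P n = (LinearMap.ker ((frac P).toLinearMap.domRestrict (part w J n))).map
      (part w J n).subtype := by
    ext p
    constructor
    · intro hp
      refine ⟨⟨p, part_mono hPJ n hp⟩, ?_, rfl⟩
      exact (frac_eq_zero P).2 ((mem_part w).1 hp).1
    · rintro ⟨⟨q, hq⟩, hq2, rfl⟩
      exact (mem_part w).2 ⟨(frac_eq_zero P).1 hq2, ((mem_part w).1 hq).2⟩
  rw [h2, Submodule.finrank_map_subtype_eq]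

/-- The larger ideal made from an algebraic element of degree zero. -/
theorem exists_larger (hP : Hom w P) {z : FractionRing (MvPolynomial σ F ⧸ P)}
    (hz : IsAlgebraic F z) {c : M} {a b : MvPolynomial σ F} (ha : IsWeightedHomogeneous w a c)
    (hb : IsWeightedHomogeneous w b c) (hbP : b ∉ P) (hzab : z = frac P a / frac P b) :
    ∃ J : Ideal (MvPolynomial σ F), Hom w J ∧ P < J ∧
      ∀ n, (minpoly F z).natDegree ∣ finrank F ((part w J n).map (frac P).toLinearMap) := by
  have hb0 : frac P b ≠ 0 := fun h => hbP ((frac_eq_zero P).1 h)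
  set m := (minpoly F z).natDegree with hm
  have hm0 : 0 < m := minpoly.natDegree_pos hz.isIntegral
  let g : ℕ → MvPolynomial σ F := fun i => a ^ i * b ^ (m - 1 - i)
  have hg : ∀ i < m, frac P (g i) = z ^ i * frac P b ^ (m - 1) := by
    intro i hi
    have h1 : frac P b ^ (m - 1) = frac P b ^ i * frac P b ^ (m - 1 - i) := by
      rw [← pow_add]
      congr 1
      omega
    rw [h1, hzab, div_pow]
    simp only [g, map_mul, map_pow]
    field_simp
  have hgh : ∀ i, ∃ e, IsWeightedHomogeneous w (g i) e := fun i =>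
    ⟨_, (ha.pow i).mul (hb.pow _)⟩
  let J : Ideal (MvPolynomial σ F) := P ⊔ Ideal.span (g '' {i | i < m})
  have hJg : ∀ i < m, g i ∈ J := fun i hi =>
    Ideal.mem_sup_right (Ideal.subset_span ⟨i, hi, rfl⟩)
  have hJ : Hom w J := hP.sup (hom_span _ (by rintro _ ⟨i, -, rfl⟩; exact hgh i))
  have hstab : ∀ k ∈ J, ∃ k' ∈ J, frac P k' = z * frac P k := by
    intro k hk
    obtain ⟨p, hp, s, hs, rfl⟩ := Submodule.mem_sup.1 hk
    rw [map_add, (frac_eq_zero P).2 hp, zero_add]
    clear hk
    induction hs using Submodule.span_induction with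
    | mem x hx =>
      obtain ⟨i, hi, rfl⟩ := hx
      have hi' : i < m := hi
      by_cases h : i + 1 < m
      · refine ⟨g (i + 1), hJg _ h, ?_⟩
        rw [hg _ h, hg _ hi']
        ring
      · have him : i + 1 = m := by omega
        refine ⟨-∑ t ∈ Finset.range m, C ((minpoly F z).coeff t) * g t, ?_, ?_⟩
        · exact neg_mem (Ideal.sum_mem _ fun t ht => Ideal.mul_mem_left _ _
            (hJg t (Finset.mem_range.1 ht)))
        · have h1 := minpoly.aeval F z
          rw [Polynomial.aeval_eq_sum_range, Finset.sum_range_succ, ← hm] at h1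
          have h2 : (minpoly F z).coeff m = 1 := (minpoly.monic hz.isIntegral).coeff_natDegree
          rw [h2, one_smul] at h1
          rw [hg _ hi', ← mul_assoc, ← pow_succ', him, map_neg, map_sum]
          have h3 : ∑ t ∈ Finset.range m, frac P (C ((minpoly F z).coeff t) * g t) =
              (∑ t ∈ Finset.range m, (minpoly F z).coeff t • z ^ t) * frac P b ^ (m - 1) := by
            rw [Finset.sum_mul]
            refine Finset.sum_congr rfl fun t ht => ?_
            rw [map_mul, hg t (Finset.mem_range.1 ht), Algebra.smul_def, mul_assoc]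
            congr 1
          rw [h3]
          linear_combination (-frac P b ^ (m - 1)) * h1
    | zero => exact ⟨0, Ideal.zero_mem _, by rw [map_zero, mul_zero]⟩
    | add x y _ _ hx hy =>
      obtain ⟨x', hx', hx2⟩ := hx
      obtain ⟨y', hy', hy2⟩ := hy
      exact ⟨x' + y', Ideal.add_mem _ hx' hy', by rw [map_add, map_add, hx2, hy2, mul_add]⟩
    | smul r x _ hx =>
      obtain ⟨x', hx', hx2⟩ := hx
      refine ⟨r * x', Ideal.mul_mem_left _ _ hx', ?_⟩
      rw [smul_eq_mul, map_mul, map_mul, hx2]
      ring
  refine ⟨J, hJ, lt_of_le_of_ne le_sup_left ?_, fun n => BD.dvd_finrank hz _ ?_⟩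
  · intro h
    have h1 : g 0 ∈ P := by
      rw [h]
      exact hJg 0 hm0
    have h2 : frac P (g 0) = 0 := (frac_eq_zero P).2 h1
    rw [hg 0 hm0] at h2
    simp [hb0] at h2
  · rintro _ ⟨k, hk, rfl⟩
    obtain ⟨hkJ, hkn⟩ := (mem_part w).1 hk
    obtain ⟨k', hk', h1⟩ := hstab k hkJ
    refine ⟨weightedHomogeneousComponent w n k', (mem_part w).2 ⟨hJ k' hk' n,
      weightedHomogeneousComponent_isWeightedHomogeneous _ _⟩, ?_⟩
    have h2 : b * k' - a * k ∈ P := by
      rw [← frac_eq_zero P, map_sub, map_mul, map_mul, h1, hzab]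
      field_simp
      ring
    have h3 := hP _ h2 (n + c)
    rw [map_sub, comp_mul hb, comp_mul ha, comp_self hkn, ← frac_eq_zero P, map_sub, map_mul,
      map_mul, sub_eq_zero] at h3
    change frac P (weightedHomogeneousComponent w n k') = z * frac P k
    rw [hzab, div_mul_eq_mul_div, ← h3, mul_div_cancel_left₀ _ hb0]

end prime

/-- The existence of conjugates of degree zero. -/
def Conj (F : Type u) [Field F] (w : σ → M) : Prop :=
  ∀ (P : Ideal (MvPolynomial σ F)) [P.IsPrime], Hom w P →
    ∀ z : FractionRing (MvPolynomial σ F ⧸ P), IsAlgebraic F z →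
      z ∉ (algebraMap F (FractionRing (MvPolynomial σ F ⧸ P))).range →
    ∃ (c : M) (a b : MvPolynomial σ F), IsWeightedHomogeneous w a c ∧
      IsWeightedHomogeneous w b c ∧ b ∉ P ∧ minpoly F (frac P a / frac P b) = minpoly F z

/-- Homogeneous ideals which are not prime contain products of two forms outside of them. -/
def Forms (F : Type u) [Field F] (w : σ → M) : Prop :=
  ∀ I : Ideal (MvPolynomial σ F), Hom w I → I ≠ ⊤ → ¬ I.IsPrime →
    ∃ (a b : MvPolynomial σ F) (c d : M), IsWeightedHomogeneous w a c ∧
      IsWeightedHomogeneous w b d ∧ a ∉ I ∧ b ∉ I ∧ a * b ∈ I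

instance [Finite σ] (P : Ideal (MvPolynomial σ F)) [P.IsPrime] :
    Algebra.EssFiniteType F (FractionRing (MvPolynomial σ F ⧸ P)) := by
  have : Algebra.EssFiniteType F (MvPolynomial σ F ⧸ P) := inferInstance
  have : Algebra.EssFiniteType (MvPolynomial σ F ⧸ P) (FractionRing (MvPolynomial σ F ⧸ P)) :=
    Algebra.EssFiniteType.of_isLocalization _ (nonZeroDivisors (MvPolynomial σ F ⧸ P))
  exact Algebra.EssFiniteType.comp F (MvPolynomial σ F ⧸ P) _

/-- **The multigraded Hilbert function is divisible by `l` in deep degrees.** -/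
theorem hil_dvd_aux {l : ℕ} (hw : FinW w) (hC : Conj F w) (hForms : Forms F w) [Finite σ]
    {κ : Type} [Finite κ] (blk : κ → Set σ) (𝓕 : Filter M)
    (h𝓕 : ∀ d : M, Filter.Tendsto (fun n => n - d) 𝓕 𝓕)
    (hblk : ∀ k, ∀ I : Ideal (MvPolynomial σ F), Hom w I → (∀ s ∈ blk k, X s ∈ I) →
      ∀ᶠ n in 𝓕, hil w I n = 0)
    (hF : ∀ (E : Type u) [Field E] [Algebra F E] (a : E), IsAlgebraic F a →
      a ∉ (algebraMap F E).range → l ∣ finrank F (IntermediateField.adjoin F {a}))
    (hP : AffPAC F) (I : Ideal (MvPolynomial σ F)) (hI : Hom w I)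
    (h0 : ∀ x : σ → F, (∀ k, ∃ s ∈ blk k, x s ≠ 0) → ∃ f ∈ I, eval x f ≠ 0) :
    ∀ᶠ n in 𝓕, l ∣ hil w I n := by
  classical
  induction I using WellFoundedGT.induction with
  | ind I ih =>
    have hih : ∀ J, I < J → Hom w J → ∀ᶠ n in 𝓕, l ∣ hil w J n := by
      intro J hJ hJh
      refine ih J hJ hJh fun x hx => ?_
      obtain ⟨f, hf, hf0⟩ := h0 x hx
      exact ⟨f, hJ.le hf, hf0⟩
    by_cases htop : I = ⊤
    · subst htop
      exact Filter.Eventually.of_forall fun n => by rw [hil_top]; exact dvd_zero _
    by_cases hp : I.IsPrime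
    · by_cases hX : ∃ k, ∀ s ∈ blk k, (X s : MvPolynomial σ F) ∈ I
      · obtain ⟨k, hk⟩ := hX
        filter_upwards [hblk k I hI hk] with n hn
        rw [hn]
        exact dvd_zero _
      push Not at hX
      choose s hs hsI using hX
      have hs0 : ∀ k, frac I (X (s k)) ≠ 0 := fun k h => hsI k ((frac_eq_zero I).1 h)
      have := Fintype.ofFinite κ
      obtain ⟨z, hz, hz0⟩ : ∃ z : FractionRing (MvPolynomial σ F ⧸ I), IsAlgebraic F z ∧
          z ∉ (algebraMap F (FractionRing (MvPolynomial σ F ⧸ I))).range := by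
        by_contra hcon
        push Not at hcon
        obtain ⟨y, hy⟩ := hP (FractionRing (MvPolynomial σ F ⧸ I)) hcon (Option σ)
          (fun o => o.elim (∏ k, frac I (X (s k)))⁻¹ fun i => frac I (X i))
        have hy1 : ∀ f ∈ I, eval (fun i => y (some i)) f = 0 := by
          intro f hf
          have h1 := hy (rename some f) (by
            rw [aeval_rename]
            change aeval (fun i => frac I (X i)) f = 0
            rw [aeval_frac, (frac_eq_zero I).2 hf])
          rwa [eval_rename] at h1
        have hy2 : ∀ k, y (some (s k)) ≠ 0 := by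
          have h1 := hy (X none * ∏ k, X (some (s k)) - 1) (by
            rw [map_sub, map_mul, map_prod, map_one, aeval_X]
            simp only [aeval_X, Option.elim]
            rw [inv_mul_cancel₀ (Finset.prod_ne_zero_iff.2 fun k _ => hs0 k), sub_self])
          rw [map_sub, map_mul, map_prod, map_one, eval_X] at h1
          simp only [eval_X] at h1
          intro k hk
          rw [Finset.prod_eq_zero (Finset.mem_univ k) hk, mul_zero, zero_sub,
            neg_eq_zero] at h1
          exact one_ne_zero h1
        obtain ⟨f, hf, hf0⟩ := h0 (fun i => y (some i)) fun k => ⟨s k, hs k, hy2 k⟩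
        exact hf0 (hy1 f hf)
      have hzl := hF _ z hz hz0
      rw [IntermediateField.adjoin.finrank hz.isIntegral] at hzl
      obtain ⟨c, a, b, ha, hb, hbP, hmin⟩ := hC I hI z hz hz0
      have hz' : IsAlgebraic F (frac I a / frac I b) := by
        by_contra h
        rw [minpoly.eq_zero (fun hi => h hi.isAlgebraic)] at hmin
        exact minpoly.ne_zero hz.isIntegral hmin.symm
      obtain ⟨J, hJ, hIJ, hJn⟩ := exists_larger I hI hz' ha hb hbP rfl
      rw [hmin] at hJn
      filter_upwards [hih J hIJ hJ] with n hn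
      have h1 := finrank_part_eq I hw hIJ.le n
      have h2 := finrank_part_add_hil hw I n
      have h3 := finrank_part_add_hil hw J n
      have h4 : hil w I n = hil w J n + finrank F ((part w J n).map (frac I).toLinearMap) := by
        omega
      rw [h4]
      exact dvd_add hn (hzl.trans (hJn n))
    · obtain ⟨a, b, c, d, ha, hb, haI, hbI, hab⟩ := hForms I hI htop hp
      have h1 : ∀ᶠ n in 𝓕, l ∣ hil w (I ⊔ Ideal.span {a}) n := by
        refine hih _ (lt_of_le_of_ne le_sup_left fun h => haI ?_)
          (hI.sup (hom_span _ (by rintro _ rfl; exact ⟨c, ha⟩)))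
        rw [h]
        exact Ideal.mem_sup_right (Ideal.mem_span_singleton_self a)
      have h2 : ∀ᶠ n in 𝓕, l ∣ hil w (col I a) n := by
        refine hih _ (lt_of_le_of_ne (fun g hg => mem_col.2 (Ideal.mul_mem_left _ _ hg))
          fun h => hbI ?_) (hI.col ha)
        rw [h]
        exact mem_col.2 hab
      filter_upwards [h1, (h𝓕 c).eventually h2] with n hn1 hn2
      rw [hil_add' hw hI ha]
      exact dvd_add hn1 hn2

end TL
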