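import Mathlib

/-!
# Multigraded Hilbert functions (Helper71, rows A of PROJECT TL)

`S = F[x_s : s ∈ σ]` is graded by a group `M`, `x_s` has degree `w s`; `TL.hil w I n` is the
dimension of the degree `n` part of `S / I`.
-/

set_option autoImplicit false

open MvPolynomial Module

namespace TL

universe u

variable {F : Type u} [Field F] {σ : Type} {M : Type} [AddCommGroup M] (w : σ → M)

/-- The graded pieces are finite dimensional. -/
def FinW : Prop := ∀ n : M, {d : σ →₀ ℕ | Finsupp.weight w d = n}.Finite

/-- Homogeneous ideals. -/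
def Hom (I : Ideal (MvPolynomial σ F)) : Prop :=
  ∀ p ∈ I, ∀ n, weightedHomogeneousComponent w n p ∈ I

/-- The degree `n` part of an ideal. -/
noncomputable def part (I : Ideal (MvPolynomial σ F)) (n : M) : Submodule F (MvPolynomial σ F) :=
  I.restrictScalars F ⊓ weightedHomogeneousSubmodule F w n

/-- The dimension of the degree `n` part of the quotient by the ideal `I`. -/
noncomputable def hil (I : Ideal (MvPolynomial σ F)) (n : M) : ℕ :=
  finrank F (weightedHomogeneousSubmodule F w n) - finrank F (part w I n)

/-- The ideal `I : f`. -/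
noncomputable def col (I : Ideal (MvPolynomial σ F)) (f : MvPolynomial σ F) :
    Ideal (MvPolynomial σ F) :=
  Submodule.comap (LinearMap.mulLeft (MvPolynomial σ F) f) I

theorem mem_col {I : Ideal (MvPolynomial σ F)} {f g : MvPolynomial σ F} :
    g ∈ col I f ↔ f * g ∈ I := Iff.rfl

theorem mem_part {I : Ideal (MvPolynomial σ F)} {n : M} {g : MvPolynomial σ F} :
    g ∈ part w I n ↔ g ∈ I ∧ IsWeightedHomogeneous w g n := by
  rw [part, Submodule.mem_inf, mem_weightedHomogeneousSubmodule, Submodule.restrictScalars_mem]

variable {w}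

theorem FinW.finite (hw : FinW w) (n : M) :
    FiniteDimensional F (weightedHomogeneousSubmodule F w n) := by
  rw [weightedHomogeneousSubmodule_eq_finsupp_supported]
  have := (hw n).to_subtype
  exact Module.Finite.equiv
    (AddMonoidAlgebra.supportedEquivFinsupp (R := F) (S := F) {d | Finsupp.weight w d = n}).symm

theorem part_le (I : Ideal (MvPolynomial σ F)) (n : M) :
    part w I n ≤ weightedHomogeneousSubmodule F w n := inf_le_right

theorem FinW.finPart (hw : FinW w) (I : Ideal (MvPolynomial σ F)) (n : M) :
    FiniteDimensional F (part w I n) := by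
  have := hw.finite (F := F) n
  exact Submodule.finiteDimensional_of_le (part_le I n)

theorem part_mono {I J : Ideal (MvPolynomial σ F)} (h : I ≤ J) (n : M) :
    part w I n ≤ part w J n := fun _ hg =>
  (mem_part w).2 ⟨h ((mem_part w).1 hg).1, ((mem_part w).1 hg).2⟩

theorem finrank_part_add_hil (hw : FinW w) (I : Ideal (MvPolynomial σ F)) (n : M) :
    finrank F (part w I n) + hil w I n = finrank F (weightedHomogeneousSubmodule F w n) := by
  have := hw.finite (F := F) n
  have := Submodule.finrank_mono (part_le (w := w) I n)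
  rw [hil]
  omega

theorem hil_top (n : M) : hil w (⊤ : Ideal (MvPolynomial σ F)) n = 0 := by
  have : part w (⊤ : Ideal (MvPolynomial σ F)) n = weightedHomogeneousSubmodule F w n := by
    ext g
    rw [mem_part, mem_weightedHomogeneousSubmodule]
    simp
  rw [hil, this]
  omega

theorem comp_self {p : MvPolynomial σ F} {n : M} (hp : IsWeightedHomogeneous w p n) :
    weightedHomogeneousComponent w n p = p :=
  hp.weightedHomogeneousComponent_same

/-- The components of a product with a form. -/
theorem comp_mul {f g : MvPolynomial σ F} {d : M} (hf : IsWeightedHomogeneous w f d) (n : M) :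
    weightedHomogeneousComponent w (n + d) (f * g) = f * weightedHomogeneousComponent w n g := by
  classical
  ext e
  rw [coeff_weightedHomogeneousComponent, coeff_mul, coeff_mul]
  have h1 : ∀ x ∈ Finset.HasAntidiagonal.antidiagonal e,
      coeff x.1 f * coeff x.2 (weightedHomogeneousComponent w n g) =
        if Finsupp.weight w e = n + d then coeff x.1 f * coeff x.2 g else 0 := by
    intro x hx
    rw [coeff_weightedHomogeneousComponent]
    by_cases h0 : coeff x.1 f = 0
    · simp [h0]
    · have h2 := hf h0
      have h3 : Finsupp.weight w e = Finsupp.weight w x.2 + d := by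
        rw [← Finset.HasAntidiagonal.mem_antidiagonal.1 hx, map_add, h2, add_comm]
      rw [h3, add_left_inj]
      split_ifs <;> simp
  rw [Finset.sum_congr rfl h1]
  split_ifs with h
  · rfl
  · exact Finset.sum_const_zero.symm

theorem comp_mul' {f g : MvPolynomial σ F} {d : M} (hf : IsWeightedHomogeneous w f d) (n : M) :
    weightedHomogeneousComponent w n (f * g) =
      f * weightedHomogeneousComponent w (n - d) g := by
  rw [← comp_mul hf, sub_add_cancel]

/-- A polynomial is the sum of its components. -/
theorem exists_sum (w : σ → M) (p : MvPolynomial σ F) :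
    ∃ A : Finset M, (∀ n, n ∉ A → weightedHomogeneousComponent w n p = 0) ∧
      ∑ n ∈ A, weightedHomogeneousComponent w n p = p := by
  classical
  have h := weightedHomogeneousComponent_finsupp (w := w) p
  refine ⟨h.toFinset, fun n hn => ?_, ?_⟩
  · by_contra h1
    exact hn (h.mem_toFinset.2 h1)
  · conv_rhs => rw [← sum_weightedHomogeneousComponent w p]
    exact (finsum_eq_sum _ h).symm

theorem Hom.sup {I J : Ideal (MvPolynomial σ F)} (hI : Hom w I) (hJ : Hom w J) :
    Hom w (I ⊔ J) := by
  intro p hp n
  obtain ⟨a, ha, b, hb, rfl⟩ := Submodule.mem_sup.1 hp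
  rw [map_add]
  exact Ideal.add_mem _ (Ideal.mem_sup_left (hI a ha n)) (Ideal.mem_sup_right (hJ b hb n))

theorem comp_mul_mem {I : Ideal (MvPolynomial σ F)} (a x : MvPolynomial σ F)
    (hx : ∀ n, weightedHomogeneousComponent w n x ∈ I) (n : M) :
    weightedHomogeneousComponent w n (a * x) ∈ I := by
  obtain ⟨A, -, hA⟩ := exists_sum w a
  rw [← hA, Finset.sum_mul, map_sum]
  refine Ideal.sum_mem _ fun i _ => ?_
  rw [comp_mul' (weightedHomogeneousComponent_isWeightedHomogeneous i a)]
  exact Ideal.mul_mem_left _ _ (hx _)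

theorem hom_span (s : Set (MvPolynomial σ F)) (hs : ∀ f ∈ s, ∃ d, IsWeightedHomogeneous w f d) :
    Hom w (Ideal.span s) := by
  classical
  intro p hp
  induction hp using Submodule.span_induction with
  | mem f hf =>
    intro n
    obtain ⟨d, hd⟩ := hs f hf
    by_cases h : d = n
    · subst h
      rw [comp_self hd]
      exact Ideal.subset_span hf
    · rw [hd.weightedHomogeneousComponent_ne _ (Ne.symm h)]
      exact Ideal.zero_mem _
  | zero => intro n; rw [map_zero]; exact Ideal.zero_mem _
  | add x y _ _ hx hy => intro n; rw [map_add]; exact Ideal.add_mem _ (hx n) (hy n)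
  | smul a x _ hx => exact comp_mul_mem a x hx

theorem hom_bot : Hom w (⊥ : Ideal (MvPolynomial σ F)) := by
  intro p hp n
  rw [Ideal.mem_bot.1 hp, map_zero]
  exact Ideal.zero_mem _

theorem Hom.col {I : Ideal (MvPolynomial σ F)} (hI : Hom w I) {f : MvPolynomial σ F}
    {d : M} (hf : IsWeightedHomogeneous w f d) : Hom w (col I f) := by
  intro p hp n
  rw [mem_col] at hp ⊢
  rw [← comp_mul hf]
  exact hI _ hp _

/-- The degree `n + d` part of `I + (f)`. -/
theorem part_sup {I : Ideal (MvPolynomial σ F)} (hI : Hom w I) {f : MvPolynomial σ F}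
    {d : M} (hf : IsWeightedHomogeneous w f d) (n : M) :
    part w (I ⊔ Ideal.span {f}) (n + d) =
      part w I (n + d) ⊔ (weightedHomogeneousSubmodule F w n).map (LinearMap.mulLeft F f) := by
  ext p
  rw [Submodule.mem_sup]
  constructor
  · intro hp
    obtain ⟨hp, hpn⟩ := (mem_part w).1 hp
    obtain ⟨a, ha, b, hb, hab⟩ := Submodule.mem_sup.1 hp
    obtain ⟨c, rfl⟩ := Ideal.mem_span_singleton.1 hb
    refine ⟨weightedHomogeneousComponent w (n + d) a, (mem_part w).2 ⟨hI a ha _,
      weightedHomogeneousComponent_isWeightedHomogeneous _ _⟩,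
      f * weightedHomogeneousComponent w n c,
      ⟨weightedHomogeneousComponent w n c, weightedHomogeneousComponent_mem w c n, rfl⟩, ?_⟩
    rw [← comp_mul hf, ← map_add, hab, comp_self hpn]
  · rintro ⟨a, ha, b, ⟨c, hc, rfl⟩, rfl⟩
    have hc' : IsWeightedHomogeneous w c n := hc
    refine (mem_part w).2 ⟨Ideal.add_mem _ (Ideal.mem_sup_left ((mem_part w).1 ha).1)
      (Ideal.mem_sup_right (Ideal.mem_span_singleton.2 (dvd_mul_right f c))), ?_⟩
    refine ((mem_part w).1 ha).2.add ?_
    rw [add_comm]
    exact hf.mul hc'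

/-- The degree `n` part of `I : f`. -/
theorem part_col {I : Ideal (MvPolynomial σ F)} {f : MvPolynomial σ F}
    {d : M} (hf : IsWeightedHomogeneous w f d) (n : M) :
    (part w (col I f) n).map (LinearMap.mulLeft F f) =
      part w I (n + d) ⊓ (weightedHomogeneousSubmodule F w n).map (LinearMap.mulLeft F f) := by
  ext p
  constructor
  · rintro ⟨c, hc, rfl⟩
    obtain ⟨h1, h2⟩ := (mem_part w).1 hc
    refine ⟨(mem_part w).2 ⟨h1, ?_⟩, ⟨c, h2, rfl⟩⟩
    rw [add_comm]
    exact hf.mul h2
  · rintro ⟨hp, ⟨c, hc, rfl⟩⟩
    exact ⟨c, (mem_part w).2 ⟨((mem_part w).1 hp).1, hc⟩, rfl⟩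

/-- **The Hilbert function of `I + (f)` and of `I : f`.** -/
theorem hil_add (hw : FinW w) {I : Ideal (MvPolynomial σ F)} (hI : Hom w I)
    {f : MvPolynomial σ F} {d : M} (hf : IsWeightedHomogeneous w f d) (n : M) :
    hil w I (n + d) = hil w (I ⊔ Ideal.span {f}) (n + d) + hil w (col I f) n := by
  by_cases h0 : f = 0
  · subst h0
    have h1 : col I (0 : MvPolynomial σ F) = ⊤ := by
      rw [eq_top_iff]
      intro g _
      rw [mem_col, zero_mul]
      exact Ideal.zero_mem _
    have h2 : I ⊔ Ideal.span {(0 : MvPolynomial σ F)} = I := by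
      rw [Ideal.span_singleton_zero, sup_bot_eq]
    rw [h1, h2, hil_top]
    rfl
  · have hinj : Function.Injective (LinearMap.mulLeft F f) := fun a b h =>
      mul_left_cancel₀ h0 h
    have := hw.finite (F := F) n
    have := hw.finite (F := F) (n + d)
    have := hw.finPart I (n + d)
    have := hw.finPart (col I f) n
    have h1 := Submodule.finrank_sup_add_finrank_inf_eq (part w I (n + d))
      ((weightedHomogeneousSubmodule F w n).map (LinearMap.mulLeft F f))
    rw [← part_sup hI hf, ← part_col hf, ← (Submodule.equivMapOfInjective _ hinj _).finrank_eq,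
      ← (Submodule.equivMapOfInjective _ hinj _).finrank_eq] at h1
    have h2 := finrank_part_add_hil hw I (n + d)
    have h3 := finrank_part_add_hil hw (I ⊔ Ideal.span {f}) (n + d)
    have h4 := finrank_part_add_hil hw (col I f) n
    omega

theorem hil_add' (hw : FinW w) {I : Ideal (MvPolynomial σ F)} (hI : Hom w I)
    {f : MvPolynomial σ F} {d : M} (hf : IsWeightedHomogeneous w f d) (n : M) :
    hil w I n = hil w (I ⊔ Ideal.span {f}) n + hil w (col I f) (n - d) := by
  have := hil_add hw hI hf (n - d)
  rwa [sub_add_cancel] at this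

end TL
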