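import Pool.Agent.Helper71.TL.Dvd

/-!
# Divisibility of Hilbert functions graded by `ℤ ^ D` (Helper71, row M1)
-/

set_option autoImplicit false

open MvPolynomial Module

namespace TL

universe u

variable {F : Type u} [Field F] {σ : Type} {D : ℕ} {w : σ → (Fin D → ℤ)}

/-- The lexicographic order. -/
@[instance_reducible] noncomputable def lexOrder (D : ℕ) : LinearOrder (Fin D → ℤ) :=
  (inferInstance : LinearOrder (Lex (Fin D → ℤ)))

theorem lexOrdered (D : ℕ) :
    @IsOrderedAddMonoid (Fin D → ℤ) _ (lexOrder D).toPreorder :=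
  (inferInstance : IsOrderedAddMonoid (Lex (Fin D → ℤ)))

theorem conj_pi : Conj F w := by
  intro P _ hP z hz hz0
  exact @exists_conj F _ σ (Fin D → ℤ) _ (lexOrder D) (lexOrdered D) w P _ hP z hz hz0

theorem forms_pi : Forms F w := by
  intro I hI h1 h2
  exact @exists_forms F _ σ (Fin D → ℤ) _ (lexOrder D) (lexOrdered D) w I hI h1 h2

theorem finW_of_pos {M : Type} [AddCommGroup M] {w : σ → M} [Finite σ] (φ : M →+ ℤ)
    (hφ : ∀ s, 0 < φ (w s)) : FinW w := by
  classical
  have := Fintype.ofFinite σ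
  intro n
  refine Set.Finite.subset (Finset.finite_toSet
    ((Finset.Iic (Finsupp.equivFunOnFinite.symm fun _ : σ => (φ n).toNat)))) ?_
  intro d hd
  rw [Finset.mem_coe, Finset.mem_Iic]
  intro s
  have hd' : Finsupp.weight w d = n := hd
  have h1 : φ n = ∑ i, (d i : ℤ) * φ (w i) := by
    rw [← hd', Finsupp.weight_apply, Finsupp.sum_fintype _ _ (fun i => by simp), map_sum]
    refine Finset.sum_congr rfl fun i _ => ?_
    rw [map_nsmul, nsmul_eq_mul]
  have h2 : (d s : ℤ) * φ (w s) ≤ φ n := by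
    rw [h1]
    exact Finset.single_le_sum (f := fun i => (d i : ℤ) * φ (w i))
      (fun i _ => mul_nonneg (Int.natCast_nonneg _) (hφ i).le) (Finset.mem_univ s)
  have h3 : (d s : ℤ) ≤ (d s : ℤ) * φ (w s) :=
    le_mul_of_one_le_right (Int.natCast_nonneg _) (hφ s)
  change d s ≤ (φ n).toNat
  omega

theorem hil_eq_zero {I : Ideal (MvPolynomial σ F)} {A : Set σ} {k : Fin D}
    (hA : ∀ s, s ∉ A → w s k ≤ 0) (h : ∀ s ∈ A, (X s : MvPolynomial σ F) ∈ I)
    {n : Fin D → ℤ} (hn : 0 < n k) : hil w I n = 0 := by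
  have : part w I n = weightedHomogeneousSubmodule F w n := by
    refine le_antisymm (part_le I n) fun p hp => (mem_part w).2 ⟨?_, hp⟩
    have h1 : p ∈ Ideal.span (X '' A : Set (MvPolynomial σ F)) := by
      rw [mem_ideal_span_X_image]
      intro m hm
      by_contra hcon
      push Not at hcon
      have h3 : IsWeightedHomogeneous w p n := hp
      have h4 := h3 (mem_support_iff.1 hm)
      have h5 : n k = m.sum fun s c => (c : ℤ) * w s k := by
        rw [← h4, Finsupp.weight_apply, Finsupp.sum, Finsupp.sum, Finset.sum_apply]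
        refine Finset.sum_congr rfl fun s _ => ?_
        rw [Pi.smul_apply, nsmul_eq_mul]
      have h6 : (m.sum fun s c => (c : ℤ) * w s k) ≤ 0 := by
        refine Finset.sum_nonpos fun s hs => ?_
        have hsA : s ∉ A := fun hsA => (Finsupp.mem_support_iff.1 hs) (hcon s hsA)
        exact mul_nonpos_of_nonneg_of_nonpos (Int.natCast_nonneg _) (hA s hsA)
      omega
    refine (Ideal.span_le.2 ?_) h1
    rintro _ ⟨i, hi, rfl⟩
    exact h i hi
  rw [hil, this]
  omega

theorem tendsto_sub (d : Fin D → ℤ) :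
    Filter.Tendsto (fun n => n - d) (Filter.atTop : Filter (Fin D → ℤ)) Filter.atTop := by
  refine Filter.tendsto_atTop_mono (f := fun n => n + (-d)) (fun n => by rw [sub_eq_add_neg]) ?_
  exact Filter.tendsto_atTop_add_const_right _ _ Filter.tendsto_id

/-- **Row M1 for ideals.** -/
theorem hil_dvd {l : ℕ} [Finite σ] (φ : (Fin D → ℤ) →+ ℤ) (hφ : ∀ s, 0 < φ (w s))
    (blk : Fin D → Set σ) (hblk : ∀ k s, s ∉ blk k → w s k ≤ 0)
    (hF : ∀ (E : Type u) [Field E] [Algebra F E] (a : E), IsAlgebraic F a →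
      a ∉ (algebraMap F E).range → l ∣ finrank F (IntermediateField.adjoin F {a}))
    (hP : AffPAC F) (I : Ideal (MvPolynomial σ F)) (hI : Hom w I)
    (h0 : ∀ x : σ → F, (∀ k, ∃ s ∈ blk k, x s ≠ 0) → ∃ f ∈ I, eval x f ≠ 0) :
    ∀ᶠ n in (Filter.atTop : Filter (Fin D → ℤ)), l ∣ hil w I n := by
  refine hil_dvd_aux (finW_of_pos φ hφ) conj_pi forms_pi blk Filter.atTop tendsto_sub ?_ hF hP I
    hI h0
  intro k J _ hJ
  filter_upwards [Filter.eventually_ge_atTop (fun _ : Fin D => (1 : ℤ))] with n hn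
  exact hil_eq_zero (hblk k) hJ (Int.lt_iff_add_one_le.2 (hn k))

theorem deep_iff {p : (Fin D → ℤ) → Prop} :
    (∀ᶠ n in (Filter.atTop : Filter (Fin D → ℤ)), p n) ↔
      ∃ C : ℤ, ∀ n : Fin D → ℤ, (∀ i, C ≤ n i) → p n := by
  rw [Filter.eventually_atTop]
  constructor
  · rintro ⟨a, ha⟩
    refine ⟨∑ i, |a i|, fun n hn => ha n fun i => le_trans ?_ (hn i)⟩
    exact (le_abs_self _).trans
      (Finset.single_le_sum (f := fun i => |a i|) (fun i _ => abs_nonneg _) (Finset.mem_univ i))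
  · rintro ⟨C, hC⟩
    exact ⟨fun _ => C, fun n hn => hC n hn⟩

end TL
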