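import Pool.Agent.Helper71.TL.Hil
import Pool.Agent.Helper71.BD.Dvd

/-!
# Top components (Helper71, rows A of PROJECT TL)

`S = F[x_s]` is graded by a linearly ordered group. An element of the field of fractions of
`S / P` (`P` a homogeneous prime) which is algebraic over `F` has a conjugate which is a quotient
of two forms of the same degree.
-/

set_option autoImplicit false

open MvPolynomial Module

namespace TL

universe u

variable {F : Type u} [Field F] {σ : Type} {M : Type} [AddCommGroup M] [LinearOrder M]
  [IsOrderedAddMonoid M] {w : σ → M}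

omit [IsOrderedAddMonoid M] in
theorem exists_top {I : Ideal (MvPolynomial σ F)} {f : MvPolynomial σ F} (hf : f ∉ I) :
    ∃ n, weightedHomogeneousComponent w n f ∉ I ∧
      ∀ i, n < i → weightedHomogeneousComponent w i f ∈ I := by
  classical
  obtain ⟨A, hA, hs⟩ := exists_sum w f
  have hne : (A.filter fun n => weightedHomogeneousComponent w n f ∉ I).Nonempty := by
    by_contra hcon
    rw [Finset.not_nonempty_iff_eq_empty] at hcon
    apply hf
    rw [← hs]
    refine Ideal.sum_mem _ fun n hn => ?_
    by_contra h
    have : n ∈ A.filter fun n => weightedHomogeneousComponent w n f ∉ I :=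
      Finset.mem_filter.2 ⟨hn, h⟩
    rw [hcon] at this
    exact Finset.notMem_empty _ this
  refine ⟨_, (Finset.mem_filter.1 (Finset.max'_mem _ hne)).2, fun i hi => ?_⟩
  by_contra h
  have hiA : i ∈ A := by
    by_contra h1
    exact h (by rw [hA i h1]; exact Ideal.zero_mem _)
  exact absurd (Finset.le_max' _ i (Finset.mem_filter.2 ⟨hiA, h⟩)) (not_le.2 hi)

theorem comp_mul_top {I : Ideal (MvPolynomial σ F)} {f g : MvPolynomial σ F} {n n' : M}
    (hf : ∀ i, n < i → weightedHomogeneousComponent w i f ∈ I)
    (hg : ∀ i, n' < i → weightedHomogeneousComponent w i g ∈ I) :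
    (∀ i, n + n' < i → weightedHomogeneousComponent w i (f * g) ∈ I) ∧
      weightedHomogeneousComponent w (n + n') (f * g) -
        weightedHomogeneousComponent w n f * weightedHomogeneousComponent w n' g ∈ I := by
  classical
  obtain ⟨A, hA, hs⟩ := exists_sum w f
  have h1 : ∀ k, weightedHomogeneousComponent w k (f * g) =
      ∑ i ∈ A, weightedHomogeneousComponent w i f * weightedHomogeneousComponent w (k - i) g := by
    intro k
    conv_lhs => rw [← hs, Finset.sum_mul, map_sum]
    exact Finset.sum_congr rfl fun i _ =>
      comp_mul' (weightedHomogeneousComponent_isWeightedHomogeneous i f) k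
  constructor
  · intro k hk
    rw [h1]
    refine Ideal.sum_mem _ fun i _ => ?_
    rcases lt_or_ge n i with h | h
    · exact Ideal.mul_mem_right _ _ (hf i h)
    · refine Ideal.mul_mem_left _ _ (hg _ ?_)
      rw [lt_sub_iff_add_lt, add_comm]
      exact lt_of_le_of_lt (by gcongr) hk
  · rw [h1]
    have h2 : weightedHomogeneousComponent w n f * weightedHomogeneousComponent w n' g =
        ∑ i ∈ A, if i = n then
          weightedHomogeneousComponent w n f * weightedHomogeneousComponent w n' g else 0 := by
      rw [Finset.sum_ite_eq' A n]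
      split_ifs with h
      · rfl
      · rw [hA n h, zero_mul]
    rw [h2, ← Finset.sum_sub_distrib]
    refine Ideal.sum_mem _ fun i _ => ?_
    split_ifs with h
    · subst h
      rw [add_sub_cancel_left, sub_self]
      exact Ideal.zero_mem _
    · rw [sub_zero]
      rcases lt_or_gt_of_ne h with h | h
      · refine Ideal.mul_mem_left _ _ (hg _ ?_)
        rw [lt_sub_iff_add_lt, add_comm]
        gcongr
      · exact Ideal.mul_mem_right _ _ (hf i h)

omit [IsOrderedAddMonoid M] in
theorem comp_one (k : M) (hk : 0 < k) :
    weightedHomogeneousComponent w k (1 : MvPolynomial σ F) = 0 :=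
  (isWeightedHomogeneous_one F w).weightedHomogeneousComponent_ne _ hk.ne'

theorem comp_pow_top {I : Ideal (MvPolynomial σ F)} {f : MvPolynomial σ F} {n : M}
    (hf : ∀ i, n < i → weightedHomogeneousComponent w i f ∈ I) (k : ℕ) :
    (∀ i, k • n < i → weightedHomogeneousComponent w i (f ^ k) ∈ I) ∧
      weightedHomogeneousComponent w (k • n) (f ^ k) -
        weightedHomogeneousComponent w n f ^ k ∈ I := by
  induction k with
  | zero =>
    constructor
    · intro i hi
      rw [zero_smul] at hi
      rw [pow_zero, comp_one i hi]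
      exact Ideal.zero_mem _
    · rw [pow_zero, pow_zero, zero_smul, comp_self (isWeightedHomogeneous_one F w), sub_self]
      exact Ideal.zero_mem _
  | succ k ih =>
    obtain ⟨h1, h2⟩ := comp_mul_top ih.1 hf
    refine ⟨fun i hi => ?_, ?_⟩
    · rw [pow_succ]
      exact h1 i (by rwa [succ_nsmul] at hi)
    · rw [pow_succ, pow_succ, succ_nsmul]
      have h3 : weightedHomogeneousComponent w (k • n + n) (f ^ k * f) -
          weightedHomogeneousComponent w n f ^ k * weightedHomogeneousComponent w n f =
          (weightedHomogeneousComponent w (k • n + n) (f ^ k * f) -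
            weightedHomogeneousComponent w (k • n) (f ^ k) *
              weightedHomogeneousComponent w n f) +
          (weightedHomogeneousComponent w (k • n) (f ^ k) -
            weightedHomogeneousComponent w n f ^ k) * weightedHomogeneousComponent w n f := by
        ring
      rw [h3]
      exact Ideal.add_mem _ h2 (Ideal.mul_mem_right _ _ ih.2)

/-- The components of a monomial in two polynomials. -/
theorem comp_mono_top {I : Ideal (MvPolynomial σ F)} {f g : MvPolynomial σ F} {n n' : M}
    (hf : ∀ i, n < i → weightedHomogeneousComponent w i f ∈ I)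
    (hg : ∀ i, n' < i → weightedHomogeneousComponent w i g ∈ I) (i j : ℕ) :
    (∀ k, i • n + j • n' < k → weightedHomogeneousComponent w k (f ^ i * g ^ j) ∈ I) ∧
      weightedHomogeneousComponent w (i • n + j • n') (f ^ i * g ^ j) -
        weightedHomogeneousComponent w n f ^ i * weightedHomogeneousComponent w n' g ^ j ∈ I := by
  obtain ⟨h1, h2⟩ := comp_pow_top hf i
  obtain ⟨h3, h4⟩ := comp_pow_top hg j
  obtain ⟨h5, h6⟩ := comp_mul_top h1 h3
  refine ⟨h5, ?_⟩
  have h7 : weightedHomogeneousComponent w (i • n + j • n') (f ^ i * g ^ j) -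
      weightedHomogeneousComponent w n f ^ i * weightedHomogeneousComponent w n' g ^ j =
      (weightedHomogeneousComponent w (i • n + j • n') (f ^ i * g ^ j) -
        weightedHomogeneousComponent w (i • n) (f ^ i) *
          weightedHomogeneousComponent w (j • n') (g ^ j)) +
      (weightedHomogeneousComponent w (i • n) (f ^ i) -
        weightedHomogeneousComponent w n f ^ i) *
          weightedHomogeneousComponent w (j • n') (g ^ j) +
      weightedHomogeneousComponent w n f ^ i *
        (weightedHomogeneousComponent w (j • n') (g ^ j) -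
          weightedHomogeneousComponent w n' g ^ j) := by
    ring
  rw [h7]
  exact Ideal.add_mem _ (Ideal.add_mem _ h6 (Ideal.mul_mem_right _ _ h2))
    (Ideal.mul_mem_left _ _ h4)

/-- A homogeneous ideal which is not prime contains a product of two forms outside of it. -/
theorem exists_forms {I : Ideal (MvPolynomial σ F)} (hI : Hom w I) (h1 : I ≠ ⊤)
    (h2 : ¬ I.IsPrime) : ∃ (a b : MvPolynomial σ F) (c d : M), IsWeightedHomogeneous w a c ∧
      IsWeightedHomogeneous w b d ∧ a ∉ I ∧ b ∉ I ∧ a * b ∈ I := by
  by_contra hcon
  push Not at hcon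
  apply h2
  refine ⟨h1, fun {x y} hxy => ?_⟩
  by_contra h3
  push Not at h3
  obtain ⟨n, hn, hn'⟩ := exists_top (w := w) h3.1
  obtain ⟨m, hm, hm'⟩ := exists_top (w := w) h3.2
  refine hcon _ _ n m (weightedHomogeneousComponent_isWeightedHomogeneous n x)
    (weightedHomogeneousComponent_isWeightedHomogeneous m y) hn hm ?_
  have h4 := (comp_mul_top hn' hm').2
  have h5 := Ideal.sub_mem _ (hI _ hxy (n + m)) h4
  rwa [sub_sub_cancel] at h5

section prime

variable (P : Ideal (MvPolynomial σ F)) [hPp : P.IsPrime]

/-- The map to the field of fractions. -/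
noncomputable def frac : MvPolynomial σ F →ₐ[F] FractionRing (MvPolynomial σ F ⧸ P) :=
  (IsScalarTower.toAlgHom F (MvPolynomial σ F ⧸ P)
    (FractionRing (MvPolynomial σ F ⧸ P))).comp (Ideal.Quotient.mkₐ F P)

omit hPp in
theorem frac_eq_zero {p : MvPolynomial σ F} : frac P p = 0 ↔ p ∈ P := by
  have h1 : frac P p = algebraMap (MvPolynomial σ F ⧸ P)
    (FractionRing (MvPolynomial σ F ⧸ P)) (Ideal.Quotient.mk P p) := rfl
  rw [h1, map_eq_zero_iff _ (IsFractionRing.injective _ _), Ideal.Quotient.eq_zero_iff_mem]

omit hPp in
theorem aeval_frac (p : MvPolynomial σ F) : aeval (fun i => frac P (X i)) p = frac P p := by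
  have : aeval (fun i => frac P (X i)) = frac P := by
    ext i
    simp
  rw [this]

theorem exists_frac (z : FractionRing (MvPolynomial σ F ⧸ P)) :
    ∃ a b : MvPolynomial σ F, b ∉ P ∧ z = frac P a / frac P b := by
  obtain ⟨x, y, hy, rfl⟩ := IsFractionRing.div_surjective (A := MvPolynomial σ F ⧸ P) z
  obtain ⟨a, rfl⟩ := Ideal.Quotient.mk_surjective x
  obtain ⟨b, rfl⟩ := Ideal.Quotient.mk_surjective y
  refine ⟨a, b, fun hb => ?_, rfl⟩
  exact mem_nonZeroDivisors_iff_ne_zero.1 hy (Ideal.Quotient.eq_zero_iff_mem.2 hb)

/-- **Conjugates of degree zero.** -/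
theorem exists_conj (hP : Hom w P) {z : FractionRing (MvPolynomial σ F ⧸ P)}
    (hz : IsAlgebraic F z) (hz0 : z ∉ (algebraMap F (FractionRing (MvPolynomial σ F ⧸ P))).range) :
    ∃ (c : M) (a b : MvPolynomial σ F), IsWeightedHomogeneous w a c ∧
      IsWeightedHomogeneous w b c ∧ b ∉ P ∧ minpoly F (frac P a / frac P b) = minpoly F z := by
  obtain ⟨f, g, hg, rfl⟩ := exists_frac P z
  have hg0 : frac P g ≠ 0 := fun h => hg ((frac_eq_zero P).1 h)
  have hf : f ∉ P := by
    intro h
    apply hz0
    rw [(frac_eq_zero P).2 h, zero_div]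
    exact ⟨0, map_zero _⟩
  have hf0 : frac P f ≠ 0 := fun h => hf ((frac_eq_zero P).1 h)
  set z := frac P f / frac P g with hzdef
  set μ := minpoly F z with hμ
  set d := μ.natDegree with hd
  have hmonic := minpoly.monic hz.isIntegral
  have hirr := minpoly.irreducible hz.isIntegral
  have hμ0 : μ.coeff 0 ≠ 0 := by
    have hz1 : z ≠ 0 := div_ne_zero hf0 hg0
    exact minpoly.coeff_zero_ne_zero hz.isIntegral hz1
  -- the relation
  set rel := ∑ i ∈ Finset.range (d + 1), C (μ.coeff i) * (f ^ i * g ^ (d - i)) with hrel
  have hsum : ∀ a b : MvPolynomial σ F, b ∉ P →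
      (∑ i ∈ Finset.range (d + 1), C (μ.coeff i) * (a ^ i * b ^ (d - i)) ∈ P ↔
        Polynomial.aeval (frac P a / frac P b) μ = 0) := by
    intro a b hb
    have hb0 : frac P b ≠ 0 := fun h => hb ((frac_eq_zero P).1 h)
    rw [← frac_eq_zero P, map_sum, Polynomial.aeval_eq_sum_range, ← hd]
    have h1 : ∑ i ∈ Finset.range (d + 1), frac P (C (μ.coeff i) * (a ^ i * b ^ (d - i))) =
        (∑ i ∈ Finset.range (d + 1), μ.coeff i • (frac P a / frac P b) ^ i) *
          frac P b ^ d := by
      rw [Finset.sum_mul]
      refine Finset.sum_congr rfl fun i hi => ?_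
      have h2 : frac P b ^ d = frac P b ^ i * frac P b ^ (d - i) := by
        rw [← pow_add]
        congr 1
        have := Finset.mem_range.1 hi
        omega
      have h3 : frac P (C (μ.coeff i)) =
          algebraMap F (FractionRing (MvPolynomial σ F ⧸ P)) (μ.coeff i) := by
        exact (frac P).commutes (μ.coeff i)
      rw [map_mul, map_mul, map_pow, map_pow, h2, h3, Algebra.smul_def, div_pow]
      field_simp
    rw [h1, mul_eq_zero, or_iff_left (pow_ne_zero _ hb0)]
  have hrelP : rel ∈ P := (hsum f g hg).2 (minpoly.aeval F z)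
  obtain ⟨n, hn, hn'⟩ := exists_top (w := w) hf
  obtain ⟨m, hm, hm'⟩ := exists_top (w := w) hg
  have hcomp : ∀ k, weightedHomogeneousComponent w k rel = ∑ i ∈ Finset.range (d + 1),
      C (μ.coeff i) * weightedHomogeneousComponent w k (f ^ i * g ^ (d - i)) := by
    intro k
    rw [hrel, map_sum]
    refine Finset.sum_congr rfl fun i _ => ?_
    rw [comp_mul' (isWeightedHomogeneous_C w (μ.coeff i)), sub_zero]
  -- the difference with a sum of monomials of the tops
  have hnm : n = m := by
    rcases lt_trichotomy n m with h | h | h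
    · exfalso
      have h1 := hP _ hrelP (d • m)
      rw [hcomp, Finset.sum_range_succ'] at h1
      have h2 : ∑ i ∈ Finset.range d, C (μ.coeff (i + 1)) *
          weightedHomogeneousComponent w (d • m) (f ^ (i + 1) * g ^ (d - (i + 1))) ∈ P := by
        refine Ideal.sum_mem _ fun i hi => Ideal.mul_mem_left _ _ ?_
        refine (comp_mono_top hn' hm' (i + 1) (d - (i + 1))).1 _ ?_
        have hi' := Finset.mem_range.1 hi
        have h3 : d • m = (i + 1) • m + (d - (i + 1)) • m := by
          rw [← add_smul]
          congr 1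
          omega
        rw [h3]
        gcongr
      have h3 := (Ideal.add_mem_iff_right _ h2).1 h1
      rw [pow_zero, one_mul, Nat.sub_zero] at h3
      have h4 := (comp_pow_top hm' d).2
      have h5 : C (μ.coeff 0) * weightedHomogeneousComponent w m g ^ d ∈ P := by
        have h6 := Ideal.sub_mem _ h3 (Ideal.mul_mem_left _ (C (μ.coeff 0)) h4)
        convert h6 using 1
        ring
      rcases hPp.mem_or_mem h5 with h6 | h6
      · have h7 : (1 : MvPolynomial σ F) ∈ P := by
          have := Ideal.mul_mem_left _ (C (μ.coeff 0)⁻¹) h6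
          rwa [← C_mul, inv_mul_cancel₀ hμ0, C_1] at this
        exact hPp.ne_top ((Ideal.eq_top_iff_one P).2 h7)
      · exact hm (hPp.mem_of_pow_mem _ h6)
    · exact h
    · exfalso
      have h1 := hP _ hrelP (d • n)
      rw [hcomp, Finset.sum_range_succ] at h1
      have h2 : ∑ i ∈ Finset.range d, C (μ.coeff i) *
          weightedHomogeneousComponent w (d • n) (f ^ i * g ^ (d - i)) ∈ P := by
        refine Ideal.sum_mem _ fun i hi => Ideal.mul_mem_left _ _ ?_
        refine (comp_mono_top hn' hm' i (d - i)).1 _ ?_
        have hi' := Finset.mem_range.1 hi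
        have h3 : d • n = i • n + (d - i) • n := by
          rw [← add_smul]
          congr 1
          omega
        rw [h3]
        gcongr
        omega
      have h3 := (Ideal.add_mem_iff_right _ h2).1 h1
      rw [Nat.sub_self, pow_zero, mul_one, hd, hmonic.coeff_natDegree, C_1, one_mul, ← hd] at h3
      have h4 := (comp_pow_top hn' d).2
      have h5 : weightedHomogeneousComponent w n f ^ d ∈ P := by
        have h6 := Ideal.sub_mem _ h3 h4
        rwa [sub_sub_cancel] at h6
      exact hn (hPp.mem_of_pow_mem _ h5)
  subst hnm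
  refine ⟨n, weightedHomogeneousComponent w n f, weightedHomogeneousComponent w n g,
    weightedHomogeneousComponent_isWeightedHomogeneous n f,
    weightedHomogeneousComponent_isWeightedHomogeneous n g, hm, ?_⟩
  have h1 := hP _ hrelP (d • n)
  rw [hcomp] at h1
  have h2 : ∑ i ∈ Finset.range (d + 1), C (μ.coeff i) *
      (weightedHomogeneousComponent w n f ^ i * weightedHomogeneousComponent w n g ^ (d - i)) ∈
        P := by
    have h3 : ∑ i ∈ Finset.range (d + 1), C (μ.coeff i) *
        (weightedHomogeneousComponent w (d • n) (f ^ i * g ^ (d - i)) -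
          weightedHomogeneousComponent w n f ^ i *
            weightedHomogeneousComponent w n g ^ (d - i)) ∈ P := by
      refine Ideal.sum_mem _ fun i hi => Ideal.mul_mem_left _ _ ?_
      have h4 := (comp_mono_top hn' hm' i (d - i)).2
      have hi' := Finset.mem_range.1 hi
      have h5 : i • n + (d - i) • n = d • n := by
        rw [← add_smul]
        congr 1
        omega
      rwa [h5] at h4
    have h6 := Ideal.sub_mem _ h1 h3
    convert h6 using 1
    rw [← Finset.sum_sub_distrib]
    refine Finset.sum_congr rfl fun i _ => ?_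
    ring
  exact (minpoly.eq_of_irreducible_of_monic hirr ((hsum _ _ hm).1 h2) hmonic).symm

end prime

end TL
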